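import Mathlib
import Pool.Agent.H16.MSum

set_option autoImplicit false

namespace Pool.Agent.Results.MP_ec274c_lc.NPHard

open Pool.Agent.H11.PT Pool.Agent.H16.MSum

theorem result : NPHard fun y : ℕ × List (ℕ × ℕ) × List Bool =>
    Nice (gr y.1 y.2.1) ∧ mE (gr y.1 y.2.1) ≤ bin y.2.2 := hard.npHard

end Pool.Agent.Results.MP_ec274c_lc.NPHard
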